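import Pool.Agent.helper80.SV.Spec

/-!
# Project sv:, module GPB
-/

set_option autoImplicit false

namespace Pool.Agent.SV

open MvPolynomial Module

theorem GPB : GPB_stmt := by
  intro W W' _ _ _ _ π hπ C hC
  obtain ⟨⟨Z, hZ⟩, h⟩ := hC
  refine ⟨?_, ?_⟩
  · obtain ⟨Z', rfl⟩ := hπ Z
    exact ⟨Z', hZ⟩
  · intro Z₀ Z₁ h0
    have h1 := h (π Z₀) (π Z₁) h0
    have e : ∀ t : ℂ, π (Z₀ + t • (Z₁ - Z₀)) = π Z₀ + t • (π Z₁ - π Z₀) := by
      intro t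
      rw [map_add, map_smul, map_sub]
    simp only [e]
    exact h1

end Pool.Agent.SV
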