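import Pool.Agent.helper65.SV.SpecE

/-! Project sv: (MP_b5a345_ag): module PSP. -/

set_option autoImplicit false

namespace Pool.Agent.SV

/-- the functions of the form of the conclusion -/
def PSP_D {Γ : Type} [AddCommGroup Γ] [Fintype Γ] (S : Set Γ) : AddSubgroup (Γ → ℤ) where
  carrier := {v | ∃ μ : Γ → Γ → ℤ, (∀ c γ, γ ∉ S → μ c γ = 0) ∧
    ∀ x, v x = ∑ γ, (μ (x + γ) γ - μ x γ)}
  add_mem' := by
    rintro v w ⟨μ, h1, h2⟩ ⟨ν, h3, h4⟩
    refine ⟨fun c γ => μ c γ + ν c γ, fun c γ h => by simp [h1 c γ h, h3 c γ h], fun x => ?_⟩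
    rw [Pi.add_apply, h2 x, h4 x, ← Finset.sum_add_distrib]
    exact Finset.sum_congr rfl fun γ _ => by ring
  zero_mem' := ⟨fun _ _ => 0, fun _ _ _ => rfl, fun x => by simp⟩
  neg_mem' := by
    rintro v ⟨μ, h1, h2⟩
    refine ⟨fun c γ => - μ c γ, fun c γ h => by simp [h1 c γ h], fun x => ?_⟩
    rw [Pi.neg_apply, h2 x, ← Finset.sum_neg_distrib]
    exact Finset.sum_congr rfl fun γ _ => by ring

theorem PSP_mem {Γ : Type} [AddCommGroup Γ] [Fintype Γ] {S : Set Γ} {v : Γ → ℤ} :
    v ∈ PSP_D S ↔ ∃ μ : Γ → Γ → ℤ, (∀ c γ, γ ∉ S → μ c γ = 0) ∧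
      ∀ x, v x = ∑ γ, (μ (x + γ) γ - μ x γ) := Iff.rfl

theorem PSP_basic {Γ : Type} [AddCommGroup Γ] [Fintype Γ] [DecidableEq Γ] (S : Set Γ) (c g : Γ)
    (hg : g ∈ S) : (Pi.single (c - g) (1 : ℤ) - Pi.single c 1 : Γ → ℤ) ∈ PSP_D S := by
  refine PSP_mem.2 ⟨fun a γ => if a = c ∧ γ = g then 1 else 0, fun a γ h => ?_, fun x => ?_⟩
  · refine if_neg ?_
    rintro ⟨-, rfl⟩
    exact h hg
  · rw [Finset.sum_eq_single g]
    · simp only [Pi.sub_apply, Pi.single_apply, and_true, eq_sub_iff_add_eq]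
    · intro b _ hb
      simp [hb]
    · simp

theorem PSP_clos {Γ : Type} [AddCommGroup Γ] [Fintype Γ] [DecidableEq Γ] (S : Set Γ) (g : Γ)
    (hg : g ∈ AddSubgroup.closure S) :
    ∀ c : Γ, (Pi.single (c - g) (1 : ℤ) - Pi.single c 1 : Γ → ℤ) ∈ PSP_D S := by
  induction hg using AddSubgroup.closure_induction with
  | mem x hx => exact fun c => PSP_basic S c x hx
  | zero => intro c; simp
  | add x y _ _ hx hy =>
    intro c
    have h := (PSP_D S).add_mem (hy (c - x)) (hx c)
    have e : c - (x + y) = c - x - y := by abel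
    rw [e]
    convert h using 1
    abel
  | neg x _ hx =>
    intro c
    have h := (PSP_D S).neg_mem (hx (c + x))
    have e : c - -x = c + x := by abel
    rw [e]
    rw [add_sub_cancel_right] at h
    convert h using 1
    abel

theorem PSP : PSP_stmt := by
  classical
  intro Γ _ _ _ S u hu
  set H := AddSubgroup.closure S with hH
  let rep : Γ → Γ := fun x => Quotient.out (QuotientAddGroup.mk x : Γ ⧸ H)
  have hrep : ∀ x, (QuotientAddGroup.mk (rep x) : Γ ⧸ H) = QuotientAddGroup.mk x := fun x =>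
    Quotient.out_eq' (QuotientAddGroup.mk x : Γ ⧸ H)
  have hrepH : ∀ x, rep x - x ∈ H := by
    intro x
    have h := (QuotientAddGroup.eq (s := H)).1 (hrep x).symm
    rwa [neg_add_eq_sub] at h
  have hidem : ∀ x, rep (rep x) = rep x := by
    intro x
    show Quotient.out (QuotientAddGroup.mk (rep x) : Γ ⧸ H) = rep x
    rw [hrep x]
  have hfib : ∀ x y, rep x = rep y ↔ x - y ∈ H := by
    intro x y
    constructor
    · intro h
      have h1 : x - y = (rep y - y) - (rep x - x) := by rw [h]; abel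
      rw [h1]
      exact H.sub_mem (hrepH y) (hrepH x)
    · intro h
      show Quotient.out (QuotientAddGroup.mk x : Γ ⧸ H) = Quotient.out (QuotientAddGroup.mk y : Γ ⧸ H)
      congr 1
      exact (QuotientAddGroup.eq (s := H)).2 (by
        rw [neg_add_eq_sub]
        have := H.neg_mem h
        rwa [neg_sub] at this)
  have hzero : ∀ y, ∑ x, u x * (Pi.single (rep x) (1 : ℤ) : Γ → ℤ) y = 0 := by
    intro y
    simp only [Pi.single_apply, mul_ite, mul_one, mul_zero]
    rw [← Finset.sum_filter]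
    by_cases hy : rep y = y
    · apply hu y
      intro x
      simp only [Finset.mem_filter, Finset.mem_univ, true_and]
      rw [← hfib x y, hy]
      exact eq_comm
    · rw [Finset.filter_eq_empty_iff.2, Finset.sum_empty]
      rintro x - rfl
      exact hy (hidem x)
  have hmem : u ∈ PSP_D S := by
    have hsum : u = ∑ x, u x • (Pi.single x (1 : ℤ) - Pi.single (rep x) 1 : Γ → ℤ) := by
      funext y
      rw [Finset.sum_apply]
      simp only [Pi.smul_apply, Pi.sub_apply, smul_eq_mul, mul_sub]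
      rw [Finset.sum_sub_distrib, hzero y, sub_zero]
      simp [Pi.single_apply]
    rw [hsum]
    refine AddSubgroup.sum_mem _ fun x _ => AddSubgroup.zsmul_mem _ ?_ _
    have h := PSP_clos S (rep x - x) (hrepH x) (rep x)
    rwa [sub_sub_cancel] at h
  exact hmem

end Pool.Agent.SV
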